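import Pool.Agent.ARC.StmtsA

set_option autoImplicit false

/-!
# Row ALX of squad ARC (helper67): one relation between the rows, columns in a set

After rows ALT of squad SZG (helper50) and ALJ of squad ARC (helper81).
-/

namespace Pool.Agent.ARC.H67

open scoped BigOperators
open Pool.Agent.THS Pool.Agent.ZES Pool.Agent.ARC
open Pool.Agent.SZG (Ch Idx gam QS WX Wf Xf Mp FF Bx Row lft Zz IM)

/-- The function attached to a row. -/
noncomputable def fr {g : ℕ} (τ : Matrix (Fin g) (Fin g) ℂ) (l : ℕ) (r : Row g l)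
    (w : Fin g → ℂ) : ℂ := FF τ l (lft r.2).2.1 (lft r.2).2.2 r.1 w

theorem alx (fqp : SZG.FqpStmt) (fdf : SZG.FdfStmt) (fl1 : SZG.Fl1Stmt) (fl2 : SZG.Fl2Stmt) :
    AlxStmt := by
  intro g K _ φ τ hτ z l hl e T ν η hν hη hM X κ hκ hrel
  have hl0 : 0 < l := hl.pos
  obtain ⟨H, hH⟩ : ∃ H : Row g l → ℂ, H = fun r => η (lft r.2).2.1 (lft r.2).2.2 := ⟨_, rfl⟩
  have hHr : ∀ r : Row g l, H r = η (lft r.2).2.1 (lft r.2).2.2 := fun r => by rw [hH]
  have hHne : ∀ r, H r ≠ 0 := fun r => by rw [hHr]; exact hη _ _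
  refine ⟨fun w => ∑ r : Row g l, φ (κ r) * H r * fr τ l r w, ⟨?_, ?_⟩, ?_, ?_⟩
  · have hd : ∀ r : Row g l, Differentiable ℂ (fun w => φ (κ r) * H r * fr τ l r w) := by
      intro r
      exact (fdf g τ hτ l _ _ r.1).const_mul _
    exact Differentiable.fun_sum fun r _ => hd r
  · intro w P Q
    change ∑ r : Row g l, φ (κ r) * H r * fr τ l r _
      = _ * ∑ r : Row g l, φ (κ r) * H r * fr τ l r w
    rw [Finset.mul_sum]
    refine Finset.sum_congr rfl fun r _ => ?_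
    have h := fqp g τ hτ l (lft r.2).2.1 (lft r.2).2.2 r.1 w P Q hl0
    have e1 : (-(Real.pi * Complex.I * ((2 * (4 * l ^ 2) : ℕ) : ℂ)
        * ∑ i, ∑ j, (Q i : ℂ) * τ i j * (Q j : ℂ))
        - 2 * Real.pi * Complex.I * ((2 * (4 * l ^ 2) : ℕ) : ℂ) * ∑ i, (Q i : ℂ) * w i) =
        (-(8 * Real.pi * Complex.I * (l : ℂ) ^ 2
                  * ∑ i, ∑ j, (Q i : ℂ) * τ i j * (Q j : ℂ))
                - 16 * Real.pi * Complex.I * (l : ℂ) ^ 2 * ∑ i, (Q i : ℂ) * w i) := by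
      push_cast
      ring
    change φ (κ r) * H r * FF τ l (lft r.2).2.1 (lft r.2).2.2 r.1
        (fun i => w i + ((P i : ℂ) + ∑ j, τ i j * (Q j : ℂ)))
      = Complex.exp (-(Real.pi * Complex.I * ((2 * (4 * l ^ 2) : ℕ) : ℂ)
        * ∑ i, ∑ j, (Q i : ℂ) * τ i j * (Q j : ℂ))
        - 2 * Real.pi * Complex.I * ((2 * (4 * l ^ 2) : ℕ) : ℂ) * ∑ i, (Q i : ℂ) * w i) *
        (φ (κ r) * H r * FF τ l (lft r.2).2.1 (lft r.2).2.2 r.1 w)
    rw [e1, h]
    ring
  · intro hF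
    have h1 : ∀ w, ∑ r : Row g l, (φ (κ r) * H r) * fr τ l r w = 0 := fun w => congrFun hF w
    have h2 : ∀ r : Row g l, φ (κ r) * H r = 0 := by
      rintro ⟨a, p, q⟩
      have h3 := fl1 g τ hτ l hl (fun r => φ (κ r) * H r) h1 a q
      exact fl2 g τ hτ l hl a q (fun p => φ (κ (a, p, q)) * H (a, p, q)) h3 p
    apply hκ
    funext r
    have h4 : φ (κ r) = 0 := (mul_eq_zero.mp (h2 r)).resolve_right (hHne r)
    exact (map_eq_zero φ).mp h4
  · intro k hk
    have h := congrArg φ (hrel k hk)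
    rw [map_sum, map_zero] at h
    have hz : (k • z : Fin g → ℂ) = fun i => (k : ℂ) * z i := by
      funext i
      rw [Pi.smul_apply, nsmul_eq_mul]
    have h9 : ν k * ∑ r : Row g l, φ (κ r) * H r * fr τ l r (k • z) = 0 := by
      rw [← h, Finset.mul_sum, hz]
      refine Finset.sum_congr rfl fun r _ => ?_
      rw [map_mul]
      have h10 : φ (Mp l e T (Zz g) (lft r.2) k r.1)
          = ν k * H r * fr τ l r (fun i => (k : ℂ) * z i) := by
        rw [hHr]
        exact hM (lft r.2).2.1 (lft r.2).2.2 k r.1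
      rw [h10]
      ring
    exact (mul_eq_zero.mp h9).resolve_left (hν k)

end Pool.Agent.ARC.H67
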